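import Mathlib

set_option autoImplicit false

namespace Pool.Agent.K9h66.ST

/-- Euclidean space of dimension three -/
abbrev E3 := EuclideanSpace ℝ (Fin 3)

/-- the matrix of `x ↦ q x q̄` for the quaternion `q = (q 0, q 1, q 2, q 3)`, applied to `x` -/
def rot {R : Type*} [CommRing R] (q : Fin 4 → R) (x : Fin 3 → R) : Fin 3 → R :=
  ![(q 0 ^ 2 + q 1 ^ 2 - q 2 ^ 2 - q 3 ^ 2) * x 0 + 2 * (q 1 * q 2 - q 0 * q 3) * x 1 +
      2 * (q 1 * q 3 + q 0 * q 2) * x 2,
    2 * (q 1 * q 2 + q 0 * q 3) * x 0 + (q 0 ^ 2 - q 1 ^ 2 + q 2 ^ 2 - q 3 ^ 2) * x 1 +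
      2 * (q 2 * q 3 - q 0 * q 1) * x 2,
    2 * (q 1 * q 3 - q 0 * q 2) * x 0 + 2 * (q 2 * q 3 + q 0 * q 1) * x 1 +
      (q 0 ^ 2 - q 1 ^ 2 - q 2 ^ 2 + q 3 ^ 2) * x 2]

/-- the norm of the quaternion -/
def qn {R : Type*} [CommRing R] (q : Fin 4 → R) : R := q 0 ^ 2 + q 1 ^ 2 + q 2 ^ 2 + q 3 ^ 2

/-- cross product -/
def cr {R : Type*} [CommRing R] (u w : Fin 3 → R) : Fin 3 → R :=
  ![u 1 * w 2 - u 2 * w 1, u 2 * w 0 - u 0 * w 2, u 0 * w 1 - u 1 * w 0]

/-- dot product -/
def dt {R : Type*} [CommRing R] (u w : Fin 3 → R) : R := u 0 * w 0 + u 1 * w 1 + u 2 * w 2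

theorem dt_rot {R : Type*} [CommRing R] (q : Fin 4 → R) (u w : Fin 3 → R) :
    dt (rot q u) (rot q w) = qn q ^ 2 * dt u w := by
  simp [dt, rot, qn]; ring

theorem cr_rot {R : Type*} [CommRing R] (q : Fin 4 → R) (u w : Fin 3 → R) (i : Fin 3) :
    cr (rot q u) (rot q w) i = qn q * rot q (cr u w) i := by
  fin_cases i <;> simp [cr, rot, qn] <;> ring

theorem rot_sub {R : Type*} [CommRing R] (q : Fin 4 → R) (u w : Fin 3 → R) :
    rot q (u - w) = rot q u - rot q w := by
  ext i
  fin_cases i <;> simp [rot] <;> ring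

theorem zero_of_orth (u w b : Fin 3 → ℝ) (hc : dt (cr u w) (cr u w) ≠ 0) (h1 : dt b u = 0)
    (h2 : dt b w = 0) (h3 : dt b (cr u w) = 0) : b 0 = 0 ∧ b 1 = 0 ∧ b 2 = 0 := by
  have key : ∀ i, b i * dt (cr u w) (cr u w) =
      dt b (cr u w) * (cr u w) i + dt b u * (cr w (cr u w)) i + dt b w * (cr (cr u w) u) i := by
    intro i
    fin_cases i <;> simp [dt, cr] <;> ring
  have h : ∀ i, b i = 0 := by
    intro i
    have := key i
    rw [h1, h2, h3] at this
    simp only [zero_mul, add_zero] at this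
    exact (mul_eq_zero.1 this).resolve_right hc
  exact ⟨h 0, h 1, h 2⟩

theorem cr_self_zero (u w : Fin 3 → ℝ) (h : dt u u = 0) : dt (cr u w) (cr u w) = 0 := by
  unfold dt at h
  have h0 : u 0 = 0 := by nlinarith [mul_self_nonneg (u 0), mul_self_nonneg (u 1), mul_self_nonneg (u 2)]
  have h1 : u 1 = 0 := by nlinarith [mul_self_nonneg (u 0), mul_self_nonneg (u 1), mul_self_nonneg (u 2)]
  have h2 : u 2 = 0 := by nlinarith [mul_self_nonneg (u 0), mul_self_nonneg (u 1), mul_self_nonneg (u 2)]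
  simp [dt, cr, h0, h1, h2]

/-- a quaternion with positive real part is determined by its action on a plane -/
theorem q_eq (q q' : Fin 4 → ℝ) (hq : 0 < q 0) (hq' : 0 < q' 0) (u w : Fin 3 → ℝ)
    (hc : dt (cr u w) (cr u w) ≠ 0) (h1 : rot q u = rot q' u) (h2 : rot q w = rot q' w) :
    q = q' := by
  have hu : dt u u ≠ 0 := fun h => hc (cr_self_zero u w h)
  have hn : 0 < qn q := by unfold qn; positivity
  have hn' : 0 < qn q' := by unfold qn; positivity
  have hm : qn q ^ 2 = qn q' ^ 2 := by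
    have a1 := dt_rot q u u
    have a2 := dt_rot q' u u
    rw [h1, a2] at a1
    exact (mul_right_cancel₀ hu a1).symm
  have hm' : qn q = qn q' := (sq_eq_sq₀ hn.le hn'.le).1 hm
  have h3 : rot q (cr u w) = rot q' (cr u w) := by
    funext i
    have a1 := cr_rot q u w i
    have a2 := cr_rot q' u w i
    rw [h1, h2, a2, ← hm'] at a1
    exact (mul_left_cancel₀ hn.ne' a1).symm
  have r0 := zero_of_orth u w
    ![(q 0 ^ 2 + q 1 ^ 2 - q 2 ^ 2 - q 3 ^ 2) - (q' 0 ^ 2 + q' 1 ^ 2 - q' 2 ^ 2 - q' 3 ^ 2),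
      2 * (q 1 * q 2 - q 0 * q 3) - 2 * (q' 1 * q' 2 - q' 0 * q' 3),
      2 * (q 1 * q 3 + q 0 * q 2) - 2 * (q' 1 * q' 3 + q' 0 * q' 2)] hc
    (by
      have := congrFun h1 0
      simp only [rot, Matrix.cons_val] at this
      simp only [dt, Matrix.cons_val]
      linear_combination this)
    (by
      have := congrFun h2 0
      simp only [rot, Matrix.cons_val] at this
      simp only [dt, Matrix.cons_val]
      linear_combination this)
    (by
      have := congrFun h3 0
      simp only [rot, Matrix.cons_val] at this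
      simp only [dt, Matrix.cons_val]
      linear_combination this)
  have r1 := zero_of_orth u w
    ![2 * (q 1 * q 2 + q 0 * q 3) - 2 * (q' 1 * q' 2 + q' 0 * q' 3),
      (q 0 ^ 2 - q 1 ^ 2 + q 2 ^ 2 - q 3 ^ 2) - (q' 0 ^ 2 - q' 1 ^ 2 + q' 2 ^ 2 - q' 3 ^ 2),
      2 * (q 2 * q 3 - q 0 * q 1) - 2 * (q' 2 * q' 3 - q' 0 * q' 1)] hc
    (by
      have := congrFun h1 1
      simp only [rot, Matrix.cons_val] at this
      simp only [dt, Matrix.cons_val]
      linear_combination this)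
    (by
      have := congrFun h2 1
      simp only [rot, Matrix.cons_val] at this
      simp only [dt, Matrix.cons_val]
      linear_combination this)
    (by
      have := congrFun h3 1
      simp only [rot, Matrix.cons_val] at this
      simp only [dt, Matrix.cons_val]
      linear_combination this)
  have r2 := zero_of_orth u w
    ![2 * (q 1 * q 3 - q 0 * q 2) - 2 * (q' 1 * q' 3 - q' 0 * q' 2),
      2 * (q 2 * q 3 + q 0 * q 1) - 2 * (q' 2 * q' 3 + q' 0 * q' 1),
      (q 0 ^ 2 - q 1 ^ 2 - q 2 ^ 2 + q 3 ^ 2) - (q' 0 ^ 2 - q' 1 ^ 2 - q' 2 ^ 2 + q' 3 ^ 2)] hc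
    (by
      have := congrFun h1 2
      simp only [rot, Matrix.cons_val] at this
      simp only [dt, Matrix.cons_val]
      linear_combination this)
    (by
      have := congrFun h2 2
      simp only [rot, Matrix.cons_val] at this
      simp only [dt, Matrix.cons_val]
      linear_combination this)
    (by
      have := congrFun h3 2
      simp only [rot, Matrix.cons_val] at this
      simp only [dt, Matrix.cons_val]
      linear_combination this)
  simp only [Matrix.cons_val] at r0 r1 r2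
  obtain ⟨a0, a1, a2⟩ := r0
  obtain ⟨b0, b1, b2⟩ := r1
  obtain ⟨c0, c1, c2⟩ := r2
  unfold qn at hm'
  have e0 : q 0 = q' 0 := by
    have : q 0 ^ 2 = q' 0 ^ 2 := by linarith
    exact (sq_eq_sq₀ hq.le hq'.le).1 this
  have f1 : q 0 * q 1 = q 0 * q' 1 := by
    have : q 0 * q 1 = q' 0 * q' 1 := by linarith
    rw [this, e0]
  have f2 : q 0 * q 2 = q 0 * q' 2 := by
    have : q 0 * q 2 = q' 0 * q' 2 := by linarith
    rw [this, e0]
  have f3 : q 0 * q 3 = q 0 * q' 3 := by
    have : q 0 * q 3 = q' 0 * q' 3 := by linarith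
    rw [this, e0]
  have e1 := mul_left_cancel₀ hq.ne' f1
  have e2 := mul_left_cancel₀ hq.ne' f2
  have e3 := mul_left_cancel₀ hq.ne' f3
  funext i
  fin_cases i
  · exact e0
  · exact e1
  · exact e2
  · exact e3

/-- the real linear map given by `rot` -/
noncomputable def rotL (q : Fin 4 → ℝ) : E3 →ₗ[ℝ] E3 where
  toFun x := WithLp.toLp 2 (rot q (fun i => x i))
  map_add' x y := by
    ext i
    fin_cases i <;> simp [rot] <;> ring
  map_smul' r x := by
    ext i
    fin_cases i <;> simp [rot] <;> ring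

/-- the map `x ↦ q x q̄ + v` is a similarity of ratio `qn q` -/
theorem exists_sim (q : Fin 4 → ℝ) (hm : 0 < qn q) (v : E3) :
    ∃ f : E3 ≃ᵢ E3, ∀ x, f (qn q • x) = rotL q x + v := by
  let L : E3 →ₗᵢ[ℝ] E3 :=
    { toLinearMap := (1 / qn q) • rotL q
      norm_map' := by
        intro x
        have h1 : ‖((1 / qn q) • rotL q) x‖ ^ 2 = ‖x‖ ^ 2 := by
          have hm' := hm.ne'
          rw [EuclideanSpace.norm_sq_eq, EuclideanSpace.norm_sq_eq]
          simp only [Fin.sum_univ_three, Real.norm_eq_abs, sq_abs, LinearMap.smul_apply,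
            PiLp.smul_apply, smul_eq_mul, rotL, LinearMap.coe_mk, AddHom.coe_mk, rot,
            Matrix.cons_val]
          field_simp
          unfold qn
          ring
        exact (sq_eq_sq₀ (norm_nonneg _) (norm_nonneg _)).1 h1 }
  let e : E3 ≃ₗᵢ[ℝ] E3 := L.toLinearIsometryEquiv rfl
  refine ⟨e.toIsometryEquiv.trans (IsometryEquiv.addRight v), fun x => ?_⟩
  simp only [IsometryEquiv.trans_apply, LinearIsometryEquiv.coe_toIsometryEquiv,
    IsometryEquiv.addRight_apply]
  congr 1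
  change (1 / qn q) • rotL q (qn q • x) = rotL q x
  rw [map_smul, smul_smul, one_div_mul_cancel hm.ne', one_smul]

end Pool.Agent.K9h66.ST
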