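import Mathlib
import Pool.Agent.K9h66.ST.Rot

set_option autoImplicit false

namespace Pool.Agent.K9h66.ST

open Finset

section

variable {A : Type} [CommRing A] {D : ℕ} (b : Module.Basis (Fin D) ℤ A)

/-- the largest absolute value of a coordinate of `x` -/
noncomputable def nn (x : A) : ℕ := univ.sup fun j => (b.repr x j).natAbs

theorem coord_le (x : A) (j : Fin D) : (b.repr x j).natAbs ≤ nn b x :=
  Finset.le_sup (f := fun j => (b.repr x j).natAbs) (mem_univ j)

theorem nn_le_iff (x : A) (M : ℕ) : nn b x ≤ M ↔ ∀ j, (b.repr x j).natAbs ≤ M := by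
  unfold nn
  simp [Finset.sup_le_iff]

theorem nn_add (x y : A) : nn b (x + y) ≤ nn b x + nn b y := by
  rw [nn_le_iff]
  intro j
  rw [map_add, Finsupp.add_apply]
  exact (Int.natAbs_add_le _ _).trans (add_le_add (coord_le b x j) (coord_le b y j))

theorem nn_neg (x : A) : nn b (-x) = nn b x := by
  unfold nn
  simp

theorem nn_sub (x y : A) : nn b (x - y) ≤ nn b x + nn b y := by
  rw [sub_eq_add_neg]
  refine (nn_add b _ _).trans ?_
  rw [nn_neg]

theorem nn_natmul (m : ℕ) (x : A) : nn b ((m : A) * x) ≤ m * nn b x := by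
  rw [nn_le_iff]
  intro j
  have h : ((m : A) * x) = (m : ℤ) • x := by
    rw [zsmul_eq_mul]
    simp
  rw [h, map_smul, Finsupp.smul_apply, smul_eq_mul, Int.natAbs_mul, Int.natAbs_natCast]
  exact Nat.mul_le_mul_left _ (coord_le b x j)

theorem exists_mul_bound : ∃ C : ℕ, 1 ≤ C ∧ ∀ x y : A, nn b (x * y) ≤ C * nn b x * nn b y := by
  refine ⟨1 + ∑ l, ∑ j, ∑ k, (b.repr (b j * b k) l).natAbs, by omega, ?_⟩
  intro x y
  rw [nn_le_iff]
  intro l
  have hx := b.sum_repr x
  have hy := b.sum_repr y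
  have h1 : b.repr (x * y) l = ∑ j, ∑ k, b.repr x j * (b.repr y k * b.repr (b j * b k) l) := by
    conv_lhs => rw [← hx, ← hy]
    rw [Finset.sum_mul_sum, map_sum, Finsupp.finsetSum_apply]
    refine Finset.sum_congr rfl fun j _ => ?_
    rw [map_sum, Finsupp.finsetSum_apply]
    refine Finset.sum_congr rfl fun k _ => ?_
    rw [smul_mul_smul_comm, map_smul, Finsupp.smul_apply, smul_eq_mul]
    ring
  rw [h1]
  have h2 : (∑ j, ∑ k, b.repr x j * (b.repr y k * b.repr (b j * b k) l)).natAbs ≤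
      ∑ j, ∑ k, nn b x * (nn b y * (b.repr (b j * b k) l).natAbs) := by
    refine (Int.natAbs_sum_le _ _).trans (Finset.sum_le_sum fun j _ => ?_)
    refine (Int.natAbs_sum_le _ _).trans (Finset.sum_le_sum fun k _ => ?_)
    rw [Int.natAbs_mul, Int.natAbs_mul]
    exact Nat.mul_le_mul (coord_le b x j) (Nat.mul_le_mul (coord_le b y k) le_rfl)
  refine h2.trans ?_
  have h3 : ∑ j, ∑ k, nn b x * (nn b y * (b.repr (b j * b k) l).natAbs) =
      (∑ j, ∑ k, (b.repr (b j * b k) l).natAbs) * nn b x * nn b y := by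
    rw [Finset.sum_mul, Finset.sum_mul]
    refine Finset.sum_congr rfl fun j _ => ?_
    rw [Finset.sum_mul, Finset.sum_mul]
    refine Finset.sum_congr rfl fun k _ => ?_
    ring
  rw [h3]
  have h4 : (∑ j, ∑ k, (b.repr (b j * b k) l).natAbs) ≤
      1 + ∑ l, ∑ j, ∑ k, (b.repr (b j * b k) l).natAbs := by
    have h5 : (∑ j, ∑ k, (b.repr (b j * b k) l).natAbs) ≤
        ∑ l, ∑ j, ∑ k, (b.repr (b j * b k) l).natAbs :=
      Finset.single_le_sum (f := fun l => ∑ j, ∑ k, (b.repr (b j * b k) l).natAbs)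
        (fun _ _ => Nat.zero_le _) (mem_univ l)
    omega
  exact Nat.mul_le_mul_right _ (Nat.mul_le_mul_right _ h4)

/-- the elements with all coordinates of absolute value at most `M` -/
noncomputable def box (M : ℕ) : Finset A := by
  classical
  exact (Fintype.piFinset fun _ : Fin D => Finset.Icc (-(M : ℤ)) M).image b.equivFun.symm

theorem mem_box (M : ℕ) (x : A) : x ∈ box b M ↔ nn b x ≤ M := by
  classical
  rw [nn_le_iff]
  unfold box
  rw [Finset.mem_image]
  constructor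
  · rintro ⟨a, ha, rfl⟩ j
    rw [Fintype.mem_piFinset] at ha
    have h1 := Finset.mem_Icc.1 (ha j)
    have h2 : b.repr (b.equivFun.symm a) j = a j := by
      have := congrFun (b.equivFun.apply_symm_apply a) j
      simpa using this
    rw [h2]
    omega
  · intro h
    refine ⟨b.equivFun x, ?_, b.equivFun.symm_apply_apply x⟩
    rw [Fintype.mem_piFinset]
    intro j
    rw [Finset.mem_Icc, Module.Basis.equivFun_apply]
    have := h j
    omega

theorem box_card (M : ℕ) : (box b M).card = (2 * M + 1) ^ D := by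
  classical
  unfold box
  rw [Finset.card_image_of_injective _ b.equivFun.symm.injective, Fintype.card_piFinset]
  simp only [Int.card_Icc, Finset.prod_const, Finset.card_univ, Fintype.card_fin]
  congr 1
  omega

/-- bound for the coordinates of the image under a quaternion -/
theorem rot_bound (C : ℕ) (hC : ∀ x y : A, nn b (x * y) ≤ C * nn b x * nn b y) (M B : ℕ)
    (q : Fin 4 → A) (hq : ∀ i, nn b (q i) ≤ M) (t : Fin 3 → A) (ht : ∀ i, nn b (t i) ≤ B)
    (i : Fin 3) : nn b (rot q t i) ≤ 12 * (C ^ 2 * M ^ 2 * B) := by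
  have key : ∀ j k l, nn b (q j * q k * t l) ≤ C ^ 2 * M ^ 2 * B := by
    intro j k l
    calc nn b (q j * q k * t l) ≤ C * nn b (q j * q k) * nn b (t l) := hC _ _
      _ ≤ C * (C * nn b (q j) * nn b (q k)) * nn b (t l) :=
          Nat.mul_le_mul_right _ (Nat.mul_le_mul_left _ (hC _ _))
      _ ≤ C * (C * M * M) * B := by
          refine Nat.mul_le_mul (Nat.mul_le_mul_left _ ?_) (ht l)
          exact Nat.mul_le_mul (Nat.mul_le_mul_left _ (hq j)) (hq k)
      _ = C ^ 2 * M ^ 2 * B := by ring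
  have gen : ∀ a1 a2 a3 a4 a5 a6 a7 a8 a9 a10 a11 a12 : A,
      nn b (a1 + a2 + a3 + a4 + a5 + a6 + a7 + a8 + a9 + a10 + a11 + a12) ≤
      nn b a1 + nn b a2 + nn b a3 + nn b a4 + nn b a5 + nn b a6 + nn b a7 + nn b a8 + nn b a9 +
        nn b a10 + nn b a11 + nn b a12 := by
    intro a1 a2 a3 a4 a5 a6 a7 a8 a9 a10 a11 a12
    have h1 := nn_add b a1 a2
    have h2 := nn_add b (a1 + a2) a3
    have h3 := nn_add b (a1 + a2 + a3) a4
    have h4 := nn_add b (a1 + a2 + a3 + a4) a5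
    have h5 := nn_add b (a1 + a2 + a3 + a4 + a5) a6
    have h6 := nn_add b (a1 + a2 + a3 + a4 + a5 + a6) a7
    have h7 := nn_add b (a1 + a2 + a3 + a4 + a5 + a6 + a7) a8
    have h8 := nn_add b (a1 + a2 + a3 + a4 + a5 + a6 + a7 + a8) a9
    have h9 := nn_add b (a1 + a2 + a3 + a4 + a5 + a6 + a7 + a8 + a9) a10
    have h10 := nn_add b (a1 + a2 + a3 + a4 + a5 + a6 + a7 + a8 + a9 + a10) a11
    have h11 := nn_add b (a1 + a2 + a3 + a4 + a5 + a6 + a7 + a8 + a9 + a10 + a11) a12
    omega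
  set W := C ^ 2 * M ^ 2 * B with hW
  have kneg : ∀ j k l, nn b (-(q j * q k * t l)) ≤ W := by
    intro j k l
    rw [nn_neg]
    exact key j k l
  fin_cases i
  · have e : rot q t 0 = q 0 * q 0 * t 0 + q 1 * q 1 * t 0 + -(q 2 * q 2 * t 0) +
        -(q 3 * q 3 * t 0) + q 1 * q 2 * t 1 + q 1 * q 2 * t 1 + -(q 0 * q 3 * t 1) +
        -(q 0 * q 3 * t 1) + q 1 * q 3 * t 2 + q 1 * q 3 * t 2 + q 0 * q 2 * t 2 +
        q 0 * q 2 * t 2 := by
      simp only [rot, Matrix.cons_val]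
      ring
    have h := gen (q 0 * q 0 * t 0) (q 1 * q 1 * t 0) (-(q 2 * q 2 * t 0))
        (-(q 3 * q 3 * t 0)) (q 1 * q 2 * t 1) (q 1 * q 2 * t 1) (-(q 0 * q 3 * t 1))
        (-(q 0 * q 3 * t 1)) (q 1 * q 3 * t 2) (q 1 * q 3 * t 2) (q 0 * q 2 * t 2)
        (q 0 * q 2 * t 2)
    simp only [Fin.zero_eta]
    rw [e]
    have k1 := key 0 0 0
    have k2 := key 1 1 0
    have k3 := kneg 2 2 0
    have k4 := kneg 3 3 0
    have k5 := key 1 2 1
    have k6 := kneg 0 3 1
    have k7 := key 1 3 2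
    have k8 := key 0 2 2
    omega
  · have e : rot q t 1 = q 0 * q 0 * t 1 + -(q 1 * q 1 * t 1) + q 2 * q 2 * t 1 +
        -(q 3 * q 3 * t 1) + q 1 * q 2 * t 0 + q 1 * q 2 * t 0 + q 0 * q 3 * t 0 +
        q 0 * q 3 * t 0 + q 2 * q 3 * t 2 + q 2 * q 3 * t 2 + -(q 0 * q 1 * t 2) +
        -(q 0 * q 1 * t 2) := by
      simp only [rot, Matrix.cons_val]
      ring
    have h := gen (q 0 * q 0 * t 1) (-(q 1 * q 1 * t 1)) (q 2 * q 2 * t 1)
        (-(q 3 * q 3 * t 1)) (q 1 * q 2 * t 0) (q 1 * q 2 * t 0) (q 0 * q 3 * t 0)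
        (q 0 * q 3 * t 0) (q 2 * q 3 * t 2) (q 2 * q 3 * t 2) (-(q 0 * q 1 * t 2))
        (-(q 0 * q 1 * t 2))
    simp only [Fin.mk_one]
    rw [e]
    have k1 := key 0 0 1
    have k2 := kneg 1 1 1
    have k3 := key 2 2 1
    have k4 := kneg 3 3 1
    have k5 := key 1 2 0
    have k6 := key 0 3 0
    have k7 := key 2 3 2
    have k8 := kneg 0 1 2
    omega
  · have e : rot q t 2 = q 0 * q 0 * t 2 + -(q 1 * q 1 * t 2) + -(q 2 * q 2 * t 2) +
        q 3 * q 3 * t 2 + q 1 * q 3 * t 0 + q 1 * q 3 * t 0 + -(q 0 * q 2 * t 0) +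
        -(q 0 * q 2 * t 0) + q 2 * q 3 * t 1 + q 2 * q 3 * t 1 + q 0 * q 1 * t 1 +
        q 0 * q 1 * t 1 := by
      simp only [rot, Matrix.cons_val]
      ring
    have h := gen (q 0 * q 0 * t 2) (-(q 1 * q 1 * t 2)) (-(q 2 * q 2 * t 2))
        (q 3 * q 3 * t 2) (q 1 * q 3 * t 0) (q 1 * q 3 * t 0) (-(q 0 * q 2 * t 0))
        (-(q 0 * q 2 * t 0)) (q 2 * q 3 * t 1) (q 2 * q 3 * t 1) (q 0 * q 1 * t 1)
        (q 0 * q 1 * t 1)
    simp only [Fin.reduceFinMk]
    rw [e]
    have k1 := key 0 0 2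
    have k2 := kneg 1 1 2
    have k3 := kneg 2 2 2
    have k4 := key 3 3 2
    have k5 := key 1 3 0
    have k6 := kneg 0 2 0
    have k7 := key 2 3 1
    have k8 := key 0 1 1
    omega

variable (ψ : A →+* ℝ)

theorem exists_shift : ∃ s : ℕ, ∀ M : ℕ, 1 ≤ M → ∀ x : A, nn b x ≤ M →
    0 < ψ (x + ((s * M : ℕ) : A)) := by
  obtain ⟨s, hs⟩ := exists_nat_gt (∑ j, |ψ (b j)|)
  refine ⟨s, ?_⟩
  intro M hM x hx
  have h1 : |ψ x| ≤ M * ∑ j, |ψ (b j)| := by
    conv_lhs => rw [← b.sum_repr x]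
    rw [map_sum, Finset.mul_sum]
    refine (Finset.abs_sum_le_sum_abs _ _).trans (Finset.sum_le_sum fun j _ => ?_)
    rw [zsmul_eq_mul, map_mul, map_intCast, abs_mul]
    refine mul_le_mul_of_nonneg_right ?_ (abs_nonneg _)
    have h2 := (coord_le b x j).trans hx
    rw [← Int.cast_abs, Int.abs_eq_natAbs]
    exact_mod_cast h2
  rw [map_add, map_natCast]
  have hM' : (1 : ℝ) ≤ M := by exact_mod_cast hM
  have h3 : (M : ℝ) * ∑ j, |ψ (b j)| < M * s := mul_lt_mul_of_pos_left hs (by linarith)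
  have h4 := neg_abs_le (ψ x)
  push_cast
  linarith

/-- the vector of `ℝ³` with coordinates `ψ (z i)` -/
noncomputable def emb (z : Fin 3 → A) : E3 := WithLp.toLp 2 (fun i => ψ (z i))

theorem emb_inj (hψ : Function.Injective ψ) : Function.Injective (emb ψ) := by
  intro z z' h
  funext i
  have h1 := congrArg (fun v : E3 => v i) h
  exact hψ h1

theorem emb_add (z z' : Fin 3 → A) : emb ψ (z + z') = emb ψ z + emb ψ z' := by
  ext i
  simp [emb]

theorem rotL_emb (q : Fin 4 → A) (t : Fin 3 → A) :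
    rotL (fun i => ψ (q i)) (emb ψ t) = emb ψ (rot q t) := by
  have h2 : ψ 2 = 2 := map_ofNat ψ 2
  ext i
  fin_cases i <;> simp [rotL, rot, emb, h2]

theorem qn_map (q : Fin 4 → A) : qn (fun i => ψ (q i)) = ψ (qn q) := by
  simp [qn]

end

/-! ### Counting -/

theorem count_images {α β ι : Type*} [DecidableEq α] [DecidableEq β] (D : Finset α) (T : Finset ι)
    (g : α → ι → β) (hinj : ∀ a ∈ D, ∀ b ∈ D, (∀ t ∈ T, g a t = g b t) → a = b) :
    D.card ≤ T.card ^ T.card * (D.image (fun a => T.image (g a))).card := by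
  classical
  refine Finset.card_le_mul_card_image D _ ?_
  intro S hS
  obtain ⟨a0, ha0, rfl⟩ := Finset.mem_image.1 hS
  have h1 : (T.image (g a0)).card ≤ T.card := Finset.card_image_le
  have h2 : (Fintype.piFinset (fun _ : T => T.image (g a0))).card ≤ T.card ^ T.card := by
    rw [Fintype.card_piFinset]
    simp only [Finset.prod_const, Finset.card_univ, Fintype.card_coe]
    exact Nat.pow_le_pow_left h1 _
  refine le_trans ?_ h2
  refine Finset.card_le_card_of_injOn (fun a => fun t : T => g a t) ?_ ?_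
  · intro a ha
    simp only [Finset.coe_filter, Set.mem_ofPred_eq] at ha
    simp only [Finset.mem_coe, Fintype.mem_piFinset]
    intro t
    rw [← ha.2]
    exact Finset.mem_image_of_mem _ t.2
  · intro a ha b hb hab
    simp only [Finset.coe_filter, Set.mem_ofPred_eq] at ha hb
    exact hinj a ha.1 b hb.1 fun t ht => congrFun hab ⟨t, ht⟩

end Pool.Agent.K9h66.ST
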