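import Mathlib
import Pool.Agent.K9h66.ST.Ring

set_option autoImplicit false

namespace Pool.Agent.K9h66.ST

open Finset Filter

section

variable {A : Type} [CommRing A] {D : ℕ} (ψ : A →+* ℝ)

/-- `T` is not contained in a line -/
def NonCol (T : Finset (Fin 3 → A)) : Prop :=
  ∃ t0 ∈ T, ∃ t1 ∈ T, ∃ t2 ∈ T,
    dt (cr (fun i => ψ (t1 i) - ψ (t0 i)) (fun i => ψ (t2 i) - ψ (t0 i)))
      (cr (fun i => ψ (t1 i) - ψ (t0 i)) (fun i => ψ (t2 i) - ψ (t0 i))) ≠ 0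

/-- add `m` to the real part -/
def sh (m : ℕ) (g : Fin 4 → A) : Fin 4 → A := Function.update g 0 (g 0 + (m : A))

theorem sh_zero (m : ℕ) (g : Fin 4 → A) : sh m g 0 = g 0 + (m : A) := by simp [sh]

theorem sh_inj (m : ℕ) (g g' : Fin 4 → A) (h : sh m g = sh m g') : g = g' := by
  funext i
  by_cases hi : i = 0
  · subst hi
    have := congrFun h 0
    rw [sh_zero, sh_zero] at this
    exact add_right_cancel this
  · have := congrFun h i
    simpa [sh, hi] using this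

theorem rot_map_sub (q : Fin 4 → A) (p t t0 : Fin 3 → A) :
    rot (fun i => ψ (q i)) (fun i => ψ (t i) - ψ (t0 i)) =
      fun i => ψ ((p + rot q t) i) - ψ ((p + rot q t0) i) := by
  have h2 : ψ 2 = 2 := map_ofNat ψ 2
  funext i
  fin_cases i <;> simp [rot, h2] <;> ring

theorem master (b : Module.Basis (Fin D) ℤ A) (hψ : Function.Injective ψ) (T : Finset (Fin 3 → A)) (hT : NonCol ψ T) :
    ∃ c1 : ℕ, 1 ≤ c1 ∧ ∀ M : ℕ, 1 ≤ M →
      ∃ P0 : Finset E3, P0.card = (4 * (c1 * M ^ 2) + 1) ^ (3 * D) ∧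
      ∃ 𝒮 : Finset (Finset E3),
      (2 * (c1 * M ^ 2) + 1) ^ (3 * D) * (2 * M + 1) ^ (4 * D) ≤ T.card ^ T.card * 𝒮.card ∧
      ∀ S ∈ 𝒮, S ⊆ P0 ∧ ∃ (f : E3 ≃ᵢ E3) (r : ℝ), 0 < r ∧
        (fun x => f (r • x)) '' (emb ψ '' (T : Set (Fin 3 → A))) = (S : Set E3) := by
  classical
  obtain ⟨C, hC1, hC⟩ := exists_mul_bound b
  obtain ⟨s, hs⟩ := exists_shift b ψ
  set B : ℕ := 1 + ∑ t ∈ T, ∑ i, nn b (t i) with hB
  have hTB : ∀ t ∈ T, ∀ i, nn b (t i) ≤ B := by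
    intro t ht i
    have h1 : nn b (t i) ≤ ∑ i, nn b (t i) :=
      Finset.single_le_sum (f := fun i => nn b (t i)) (fun _ _ => Nat.zero_le _) (mem_univ i)
    have h2 : ∑ i, nn b (t i) ≤ ∑ t ∈ T, ∑ i, nn b (t i) :=
      Finset.single_le_sum (f := fun t : Fin 3 → A => ∑ i, nn b (t i))
        (fun _ _ => Nat.zero_le _) ht
    omega
  set s1 : ℕ := 1 + s * nn b 1 with hs1
  refine ⟨12 * (C ^ 2 * s1 ^ 2 * B), ?_, ?_⟩
  · have h1 : 0 < C ^ 2 * s1 ^ 2 * B := by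
      have : 0 < C := hC1
      have : 0 < s1 := by omega
      have : 0 < B := by omega
      positivity
    omega
  intro M hM
  set H := 12 * (C ^ 2 * s1 ^ 2 * B) * M ^ 2 with hH
  set P0 : Finset E3 := (Fintype.piFinset fun _ : Fin 3 => box b (2 * H)).image (emb ψ) with hP0
  refine ⟨P0, ?_, ?_⟩
  · rw [hP0, Finset.card_image_of_injective _ (emb_inj ψ hψ), Fintype.card_piFinset]
    simp only [box_card, Finset.prod_const, Finset.card_univ, Fintype.card_fin]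
    rw [← pow_mul, mul_comm D 3]
    congr 2
    ring
  set X : Finset ((Fin 3 → A) × (Fin 4 → A)) :=
    (Fintype.piFinset fun _ : Fin 3 => box b H) ×ˢ (Fintype.piFinset fun _ : Fin 4 => box b M)
    with hX
  have hXc : X.card = (2 * H + 1) ^ (3 * D) * (2 * M + 1) ^ (4 * D) := by
    rw [hX, Finset.card_product, Fintype.card_piFinset, Fintype.card_piFinset]
    simp only [box_card, Finset.prod_const, Finset.card_univ, Fintype.card_fin]
    rw [← pow_mul, ← pow_mul, mul_comm D 3, mul_comm D 4]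
  have hpos : ∀ a ∈ X, 0 < ψ (sh (s * M) a.2 0) := by
    intro a ha
    rw [sh_zero]
    refine hs M hM _ ?_
    rw [hX, Finset.mem_product, Fintype.mem_piFinset, Fintype.mem_piFinset] at ha
    exact (mem_box b M _).1 (ha.2 0)
  refine ⟨X.image (fun a => T.image fun t => emb ψ (a.1 + rot (sh (s * M) a.2) t)), ?_, ?_⟩
  · rw [← hXc]
    refine count_images X T (fun a t => emb ψ (a.1 + rot (sh (s * M) a.2) t)) ?_
    rintro ⟨p, g⟩ ha ⟨p', g'⟩ hb h
    obtain ⟨t0, h0, t1, h1, t2, h2, hne⟩ := hT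
    have e : ∀ t ∈ T, p + rot (sh (s * M) g) t = p' + rot (sh (s * M) g') t :=
      fun t ht => emb_inj ψ hψ (h t ht)
    have k1 : (fun i => ψ (sh (s * M) g i)) = fun i => ψ (sh (s * M) g' i) := by
      refine q_eq _ _ (hpos _ ha) (hpos _ hb) _ _ hne ?_ ?_
      · rw [rot_map_sub ψ _ p, rot_map_sub ψ _ p', e t1 h1, e t0 h0]
      · rw [rot_map_sub ψ _ p, rot_map_sub ψ _ p', e t2 h2, e t0 h0]
    have k2 : sh (s * M) g = sh (s * M) g' := by
      funext i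
      exact hψ (congrFun k1 i)
    have k3 : g = g' := sh_inj _ _ _ k2
    subst k3
    have k4 : p = p' := add_right_cancel (e t0 h0)
    rw [k4]
  · intro S hS
    obtain ⟨a, ha, rfl⟩ := Finset.mem_image.1 hS
    have hp := hpos a ha
    rw [hX, Finset.mem_product, Fintype.mem_piFinset, Fintype.mem_piFinset] at ha
    obtain ⟨ha1, ha2⟩ := ha
    have hq : ∀ i, nn b (sh (s * M) a.2 i) ≤ s1 * M := by
      intro i
      have hi := (mem_box b M _).1 (ha2 i)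
      by_cases h0 : i = 0
      · subst h0
        rw [sh_zero]
        refine (nn_add b _ _).trans ?_
        have h3 := nn_natmul b (s * M) 1
        rw [mul_one] at h3
        calc nn b (a.2 0) + nn b ((s * M : ℕ) : A) ≤ M + s * M * nn b 1 := add_le_add hi h3
          _ = s1 * M := by rw [hs1]; ring
      · have : sh (s * M) a.2 i = a.2 i := by simp [sh, h0]
        rw [this]
        refine hi.trans ?_
        rw [hs1]
        nlinarith [Nat.zero_le (s * nn b 1 * M)]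
    refine ⟨?_, ?_⟩
    · intro x hx
      obtain ⟨t, ht, rfl⟩ := Finset.mem_image.1 hx
      rw [hP0]
      refine Finset.mem_image_of_mem _ ?_
      rw [Fintype.mem_piFinset]
      intro i
      rw [mem_box, Pi.add_apply]
      refine (nn_add b _ _).trans ?_
      have h4 := (mem_box b H _).1 (ha1 i)
      have h5 := rot_bound b C hC (s1 * M) B _ hq t (hTB t ht) i
      have h6 : 12 * (C ^ 2 * (s1 * M) ^ 2 * B) = H := by rw [hH]; ring
      omega
    · have hqn : 0 < qn (fun i => ψ (sh (s * M) a.2 i)) := by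
        unfold qn
        positivity
      obtain ⟨f, hf⟩ := exists_sim (fun i => ψ (sh (s * M) a.2 i)) hqn (emb ψ a.1)
      refine ⟨f, _, hqn, ?_⟩
      rw [coe_image, Set.image_image]
      refine Set.image_congr fun t _ => ?_
      rw [hf, rotL_emb, emb_add, add_comm]

theorem rpow_help (x : ℝ) (hx : 0 ≤ x) : (x ^ (3 * D)) ^ (5 / 3 : ℝ) = x ^ (5 * D) := by
  rw [← Real.rpow_natCast x (3 * D), ← Real.rpow_mul hx, ← Real.rpow_natCast x (5 * D)]
  congr 1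
  push_cast
  ring

theorem pick (c1 D' : ℕ) (hc1 : 1 ≤ c1) (hD : 1 ≤ D') (n : ℕ)
    (hn : (4 * (c1 * 1 ^ 2) + 1) ^ (3 * D') ≤ n) :
    ∃ M : ℕ, 1 ≤ M ∧ (4 * (c1 * M ^ 2) + 1) ^ (3 * D') ≤ n ∧
      n < (4 * (c1 * (M + 1) ^ 2) + 1) ^ (3 * D') := by
  have hex : ∃ M : ℕ, n < (4 * (c1 * (M + 1) ^ 2) + 1) ^ (3 * D') := by
    refine ⟨n, ?_⟩
    have h1 : n < 4 * (c1 * (n + 1) ^ 2) + 1 := by nlinarith
    calc n < 4 * (c1 * (n + 1) ^ 2) + 1 := h1
      _ ≤ (4 * (c1 * (n + 1) ^ 2) + 1) ^ (3 * D') := Nat.le_self_pow (by omega) _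
  classical
  have h0 : Nat.find hex ≠ 0 := by
    intro h
    have := Nat.find_spec hex
    rw [h] at this
    simp only [zero_add] at this
    omega
  refine ⟨Nat.find hex, Nat.pos_of_ne_zero h0, ?_, Nat.find_spec hex⟩
  have := Nat.find_min hex (m := Nat.find hex - 1) (by omega)
  rw [Nat.sub_add_cancel (Nat.pos_of_ne_zero h0)] at this
  exact not_lt.1 this

/-- many similar copies of a finite set with coordinates in `ψ(A)` -/
theorem alg_main (b : Module.Basis (Fin D) ℤ A) (hψ : Function.Injective ψ) (T : Finset (Fin 3 → A)) (hT : NonCol ψ T) :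
    ∃ c : ℝ, 0 < c ∧ ∀ᶠ n : ℕ in atTop, ∃ (P : Finset E3) (𝒮 : Finset (Finset E3)), P.card = n ∧
      c * (n : ℝ) ^ (5 / 3 : ℝ) ≤ 𝒮.card ∧ ∀ S ∈ 𝒮, S ⊆ P ∧
        ∃ (f : E3 ≃ᵢ E3) (r : ℝ), 0 < r ∧
          (fun x => f (r • x)) '' (emb ψ '' (T : Set (Fin 3 → A))) = (S : Set E3) := by
  classical
  obtain ⟨c1, hc1, h⟩ := master ψ b hψ T hT
  have hD : 1 ≤ D := by
    by_contra hD
    have hD0 : D = 0 := by omega
    subst hD0
    have h1 : (1 : A) = 0 := by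
      rw [← b.sum_repr 1]
      simp
    have h2 := congrArg ψ h1
    rw [map_one, map_zero] at h2
    exact one_ne_zero h2
  have hTc : 0 < T.card := by
    obtain ⟨t0, h0, _⟩ := hT
    exact Finset.card_pos.2 ⟨t0, h0⟩
  set τ : ℕ := T.card ^ T.card with hτ
  have hτ0 : 0 < τ := pow_pos hTc _
  refine ⟨(c1 : ℝ) ^ (3 * D) / (τ * (17 * c1) ^ (5 * D)), by positivity, ?_⟩
  filter_upwards [eventually_ge_atTop ((4 * (c1 * 1 ^ 2) + 1) ^ (3 * D))] with n hn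
  obtain ⟨M, hM, hM1, hM2⟩ := pick c1 D hc1 hD n hn
  obtain ⟨P0, hP0, 𝒮, hc, hS⟩ := h M hM
  obtain ⟨P, hP1, hP2⟩ := Infinite.exists_superset_card_eq P0 n (by rw [hP0]; exact hM1)
  refine ⟨P, 𝒮, hP2, ?_, fun S hSS => ⟨(hS S hSS).1.trans hP1, (hS S hSS).2⟩⟩
  have hMr : (1 : ℝ) ≤ M := by exact_mod_cast hM
  have hcr : (1 : ℝ) ≤ c1 := by exact_mod_cast hc1
  have h1 : (n : ℝ) ≤ (17 * c1 * (M : ℝ) ^ 2) ^ (3 * D) := by
    have h2 : (n : ℝ) ≤ (4 * (c1 * ((M : ℝ) + 1) ^ 2) + 1) ^ (3 * D) := by exact_mod_cast hM2.le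
    refine h2.trans ?_
    have h3 : (4 * (c1 * ((M : ℝ) + 1) ^ 2) + 1) ≤ 17 * c1 * (M : ℝ) ^ 2 := by
      have h4 : ((M : ℝ) + 1) ^ 2 ≤ 4 * (M : ℝ) ^ 2 := by nlinarith
      have h5 : (1 : ℝ) ≤ c1 * (M : ℝ) ^ 2 := by nlinarith
      nlinarith
    gcongr
  have h4 : (n : ℝ) ^ (5 / 3 : ℝ) ≤ (17 * c1 * (M : ℝ) ^ 2) ^ (5 * D) := by
    have h5 := Real.rpow_le_rpow (by positivity) h1 (z := (5 : ℝ) / 3) (by positivity)
    rwa [rpow_help _ (by positivity)] at h5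
  have h6 : (2 * (c1 * (M : ℝ) ^ 2) + 1) ^ (3 * D) * (2 * (M : ℝ) + 1) ^ (4 * D) ≤
      τ * 𝒮.card := by exact_mod_cast hc
  have h7 : (c1 * (M : ℝ) ^ 2) ^ (3 * D) * (M : ℝ) ^ (4 * D) ≤ τ * 𝒮.card := by
    refine le_trans ?_ h6
    gcongr
    · have : 0 ≤ (c1 : ℝ) * (M : ℝ) ^ 2 := by positivity
      linarith
    · linarith
  have hτr : (0 : ℝ) < τ := by exact_mod_cast hτ0
  calc (c1 : ℝ) ^ (3 * D) / (τ * (17 * c1) ^ (5 * D)) * (n : ℝ) ^ (5 / 3 : ℝ)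
      ≤ (c1 : ℝ) ^ (3 * D) / (τ * (17 * c1) ^ (5 * D)) * (17 * c1 * (M : ℝ) ^ 2) ^ (5 * D) := by
        gcongr
    _ = (c1 * (M : ℝ) ^ 2) ^ (3 * D) * (M : ℝ) ^ (4 * D) / τ := by
        rw [mul_pow (17 * (c1 : ℝ)) _ (5 * D), mul_pow (c1 : ℝ) _ (3 * D)]
        have hne : (17 * (c1 : ℝ)) ^ (5 * D) ≠ 0 := by positivity
        field_simp
        rw [← pow_mul, ← pow_mul, ← pow_add]
        congr 1
        ring
    _ ≤ 𝒮.card := by
        rw [div_le_iff₀ hτr]; linarith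

end

end Pool.Agent.K9h66.ST
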